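import Pool.Agent.Helper53.CL.G.G00

/-!
# CL-H02: basic facts on conformal surfaces (shared by the blocks B, C, D, F; about 250 lines)

`secondCountable`: `S` is the union of the finitely many open sets `(φ i).source`, homeomorphic to the disc.
`area_map`: for Borel `B ⊆ ℂ`, `area (φ i ⁻¹' B ∩ source) = ∫⁻ z in φ i '' (..), ρ i`, `area_eq`, and
`φ i '' (φ i ⁻¹' B ∩ source) = B ∩ ball 0 3`.
`integral_chart`: change of variables with the open embedding / measurable embedding `(φ i).symm` restricted to the ball, or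
from `area_map`; both sides are `0` if not integrable.
`area_finite`: `S` is covered by the sets `φ i ⁻¹' (ball 0 1)`, of area `∫ z in ball 0 1, ρ i z < ∞`.
`measurable_idx`: `{x | idx x = i}` is `{x | x ∈ D i, x ∉ D j for j < i}`, `D i = source ∩ φ i ⁻¹' ball 0 1` open.
`norm_grad`: let `k = idx x`, `τ = φ k ∘ (φ i).symm` near `φ i x`; `u ∘ (φ i).symm = (u ∘ (φ k).symm) ∘ τ`, so
`gr` in the chart `i` has the norm of `Dτ^T gr` in the chart `k`, and `Dτ` is `√(ρ i / ρ k)` times an orthogonal map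
(`trans_conf`: `‖Dτ v‖^2 = (ρ i / ρ k) ‖v‖^2` for all `v`; in the plane the transpose has the same property; `trans_holo`).
-/

namespace Pool.Agent.Helper53.CL.H

open MeasureTheory Filter Topology Metric Set
open scoped ContDiff Real ENNReal

variable {S : Type*} [TopologicalSpace S] [MeasurableSpace S]

theorem secondCountable (C : CSurf S) : SecondCountableTopology S := by
  have h : ∀ i, SecondCountableTopology (C.φ i).source := fun i =>
    (C.φ i).secondCountableTopology_source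
  refine TopologicalSpace.secondCountableTopology_of_countable_cover
    (U := fun i => (C.φ i).source) (fun i => (C.φ i).open_source) ?_
  rw [eq_univ_iff_forall]
  intro x
  obtain ⟨i, hi, _⟩ := C.cover x
  exact mem_iUnion.2 ⟨i, hi⟩

theorem continuous_of_isC1 (C : CSurf S) {v : S → ℝ} (hv : C.IsC1 v) : Continuous v := by
  rw [continuous_iff_continuousAt]
  intro x
  obtain ⟨i, hi, _⟩ := C.cover x
  have hx3 : C.φ i x ∈ ball (0 : ℂ) 3 := by
    rw [← C.target i]
    exact (C.φ i).map_source hi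
  have h1 : ContinuousAt (v ∘ (C.φ i).symm) (C.φ i x) :=
    (hv i).continuousOn.continuousAt (isOpen_ball.mem_nhds hx3)
  have h2 : ContinuousAt ((v ∘ (C.φ i).symm) ∘ C.φ i) x :=
    ContinuousAt.comp h1 ((C.φ i).continuousAt hi)
  refine h2.congr ?_
  filter_upwards [(C.φ i).open_source.mem_nhds hi] with y hy
  simp only [Function.comp_apply]
  rw [(C.φ i).left_inv hy]

theorem isC1_of_isSmooth (C : CSurf S) {v : S → ℝ} (hv : C.IsSmooth v) : C.IsC1 v := fun i =>
  (hv i).of_le (by exact_mod_cast le_top)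

/-- Orthogonality of the rows from the orthogonality of the columns. -/
private lemma rows {p1 p2 q1 q2 l : ℝ} (hl : 0 < l) (hp : p1 ^ 2 + p2 ^ 2 = l)
    (hq : q1 ^ 2 + q2 ^ 2 = l) (hpq : p1 * q1 + p2 * q2 = 0) :
    p1 ^ 2 + q1 ^ 2 = l ∧ p2 ^ 2 + q2 ^ 2 = l ∧ p1 * p2 + q1 * q2 = 0 := by
  have hD : (p1 * q2 - p2 * q1) ^ 2 = l ^ 2 := by
    have : (p1 * q2 - p2 * q1) ^ 2 + (p1 * q1 + p2 * q2) ^ 2 =
        (p1 ^ 2 + p2 ^ 2) * (q1 ^ 2 + q2 ^ 2) := by ring
    rw [hp, hq, hpq] at this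
    linarith
  have h1 : l * q1 = -p2 * (p1 * q2 - p2 * q1) := by
    rw [← hp]
    linear_combination p1 * hpq
  have h2 : l * q2 = p1 * (p1 * q2 - p2 * q1) := by
    rw [← hp]
    linear_combination p2 * hpq
  have hl2 : l ^ 2 ≠ 0 := by positivity
  refine ⟨?_, ?_, ?_⟩
  · have : l ^ 2 * (p1 ^ 2 + q1 ^ 2) = l ^ 2 * l := by
      have e : l ^ 2 * q1 ^ 2 = p2 ^ 2 * l ^ 2 := by
        rw [← mul_pow, h1, mul_pow, hD]
        ring
      rw [mul_add, e, ← hp]
      ring
    exact mul_left_cancel₀ hl2 this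
  · have : l ^ 2 * (p2 ^ 2 + q2 ^ 2) = l ^ 2 * l := by
      have e : l ^ 2 * q2 ^ 2 = p1 ^ 2 * l ^ 2 := by
        rw [← mul_pow, h2, mul_pow, hD]
      rw [mul_add, e, ← hp]
      ring
    exact mul_left_cancel₀ hl2 this
  · have : l ^ 2 * (p1 * p2 + q1 * q2) = l ^ 2 * 0 := by
      have e : l ^ 2 * (q1 * q2) = -p2 * p1 * l ^ 2 := by
        have : l ^ 2 * (q1 * q2) = (l * q1) * (l * q2) := by ring
        rw [this, h1, h2, ← hD]
        ring
      rw [mul_add, e]
      ring
    exact mul_left_cancel₀ hl2 this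

private lemma idx_spec (C : CSurf S) (x : S) :
    x ∈ (C.φ (C.idx x)).source ∧ C.φ (C.idx x) x ∈ ball (0 : ℂ) 1 := by
  classical
  have h := Finset.min'_mem (Finset.univ.filter fun i =>
    x ∈ (C.φ i).source ∧ C.φ i x ∈ ball (0 : ℂ) 1)
    (let ⟨i, hi⟩ := C.cover x; ⟨i, Finset.mem_filter.2 ⟨Finset.mem_univ i, hi⟩⟩)
  have h2 := (Finset.mem_filter.1 h).2
  convert h2 using 2 <;> unfold CSurf.idx <;> congr!

private lemma inner_coord (w z : ℂ) : inner ℝ w z = w.re * z.re + w.im * z.im := by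
  rw [Complex.inner]
  simp
  ring

private lemma dir_eq (L : ℂ →L[ℝ] ℝ) (w : ℂ) : L w = w.re * L 1 + w.im * L Complex.I := by
  have e : w = w.re • (1 : ℂ) + w.im • Complex.I := by
    rw [Complex.real_smul, Complex.real_smul, mul_one, Complex.re_add_im]
  conv_lhs => rw [e]
  rw [map_add, map_smul, map_smul, smul_eq_mul, smul_eq_mul]

/-- The gradients in two charts. -/
private lemma grad_two (C : CSurf S) {v v' : S → ℝ} (hv : C.IsC1 v) (hv' : C.IsC1 v') {x : S}
    {i k : Fin C.n} (hx : x ∈ (C.φ i).source) (hk : x ∈ (C.φ k).source) :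
    inner ℝ (gr (v ∘ (C.φ k).symm) (C.φ k x)) (gr (v' ∘ (C.φ k).symm) (C.φ k x)) /
        C.ρ k (C.φ k x) =
      inner ℝ (gr (v ∘ (C.φ i).symm) (C.φ i x)) (gr (v' ∘ (C.φ i).symm) (C.φ i x)) /
        C.ρ i (C.φ i x) := by
  have hxi3 : C.φ i x ∈ ball (0 : ℂ) 3 := by
    rw [← C.target i]
    exact (C.φ i).map_source hx
  have hxk3 : C.φ k x ∈ ball (0 : ℂ) 3 := by
    rw [← C.target k]
    exact (C.φ k).map_source hk
  have hri := C.ρ_pos i _ hxi3
  have hrk := C.ρ_pos k _ hxk3
  set τ := C.φ k ∘ (C.φ i).symm with hτ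
  have hy : C.φ i x ∈ ((C.φ i).symm.trans (C.φ k)).source := by
    rw [OpenPartialHomeomorph.trans_source]
    refine ⟨(C.φ i).map_source hx, ?_⟩
    rw [mem_preimage, (C.φ i).left_inv hx]
    exact hk
  have hopen : IsOpen ((C.φ i).symm.trans (C.φ k)).source :=
    ((C.φ i).symm.trans (C.φ k)).open_source
  have hτy : τ (C.φ i x) = C.φ k x := by
    rw [hτ, Function.comp_apply, (C.φ i).left_inv hx]
  have hτd : HasFDerivAt τ (fderiv ℝ τ (C.φ i x)) (C.φ i x) :=
    (((C.trans_smooth i k).contDiffAt (hopen.mem_nhds hy)).differentiableAt (by simp)).hasFDerivAt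
  have hconf : ∀ w : ℂ, C.ρ k (C.φ k x) * ‖fderiv ℝ τ (C.φ i x) w‖ ^ 2 =
      C.ρ i (C.φ i x) * ‖w‖ ^ 2 := C.trans_conf i k x hx hk
  have hchain : ∀ u : S → ℝ, C.IsC1 u → ∀ w : ℂ,
      fderiv ℝ (u ∘ (C.φ i).symm) (C.φ i x) w =
        fderiv ℝ (u ∘ (C.φ k).symm) (C.φ k x) (fderiv ℝ τ (C.φ i x) w) := by
    intro u hu w
    have h1 : HasFDerivAt (u ∘ (C.φ k).symm) (fderiv ℝ (u ∘ (C.φ k).symm) (τ (C.φ i x)))
        (τ (C.φ i x)) := by
      rw [hτy]
      exact (((hu k).contDiffAt (isOpen_ball.mem_nhds hxk3)).differentiableAt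
        (by simp)).hasFDerivAt
    have h2 := h1.comp (C.φ i x) hτd
    have h3 : (u ∘ (C.φ i).symm) =ᶠ[𝓝 (C.φ i x)] ((u ∘ (C.φ k).symm) ∘ τ) := by
      filter_upwards [hopen.mem_nhds hy] with y' hy'
      rw [OpenPartialHomeomorph.trans_source] at hy'
      simp only [Function.comp_apply, hτ]
      rw [(C.φ k).left_inv hy'.2]
    rw [h3.fderiv_eq, h2.fderiv, hτy]
    rfl
  set M := fderiv ℝ τ (C.φ i x) with hM
  set l := C.ρ i (C.φ i x) / C.ρ k (C.φ k x) with hl
  have hl0 : 0 < l := div_pos hri hrk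
  have hn : ∀ w : ℂ, (M w).re ^ 2 + (M w).im ^ 2 = l * (w.re ^ 2 + w.im ^ 2) := by
    intro w
    have h1 := hconf w
    rw [← Complex.normSq_eq_norm_sq, ← Complex.normSq_eq_norm_sq, Complex.normSq_apply,
      Complex.normSq_apply] at h1
    rw [hl, div_mul_eq_mul_div, eq_div_iff hrk.ne']
    linarith
  have n1 : (M 1).re ^ 2 + (M 1).im ^ 2 = l := by
    have := hn 1
    simpa using this
  have n2 : (M Complex.I).re ^ 2 + (M Complex.I).im ^ 2 = l := by
    have := hn Complex.I
    simpa using this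
  have n3 : (M 1).re * (M Complex.I).re + (M 1).im * (M Complex.I).im = 0 := by
    have := hn (1 + Complex.I)
    rw [map_add, Complex.add_re, Complex.add_im] at this
    simp at this
    nlinarith [n1, n2]
  obtain ⟨r1, r2, r3⟩ := rows hl0 n1 n2 n3
  have hgi : ∀ u : S → ℝ, C.IsC1 u → gr (u ∘ (C.φ i).symm) (C.φ i x) =
      ⟨(M 1).re * (gr (u ∘ (C.φ k).symm) (C.φ k x)).re +
        (M 1).im * (gr (u ∘ (C.φ k).symm) (C.φ k x)).im,
      (M Complex.I).re * (gr (u ∘ (C.φ k).symm) (C.φ k x)).re +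
        (M Complex.I).im * (gr (u ∘ (C.φ k).symm) (C.φ k x)).im⟩ := by
    intro u hu
    unfold gr dx dy
    rw [hchain u hu 1, hchain u hu Complex.I, dir_eq _ (M 1), dir_eq _ (M Complex.I)]
  rw [hgi v hv, hgi v' hv', inner_coord, inner_coord]
  set G := gr (v ∘ (C.φ k).symm) (C.φ k x)
  set G' := gr (v' ∘ (C.φ k).symm) (C.φ k x)
  have hri' : C.ρ i (C.φ i x) = l * C.ρ k (C.φ k x) := by
    rw [hl]
    field_simp
  have e : ((M 1).re * G.re + (M 1).im * G.im) * ((M 1).re * G'.re + (M 1).im * G'.im) +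
      ((M Complex.I).re * G.re + (M Complex.I).im * G.im) *
        ((M Complex.I).re * G'.re + (M Complex.I).im * G'.im) =
      l * (G.re * G'.re + G.im * G'.im) := by
    linear_combination (G.re * G'.re) * r1 + (G.im * G'.im) * r2 +
      (G.re * G'.im + G.im * G'.re) * r3
  simp only []
  rw [e, hri', mul_div_mul_left _ _ hl0.ne']

private lemma grad_inner (C : CSurf S) (v v' : S → ℝ) (x : S) :
    inner ℝ (C.grad v x) (C.grad v' x) =
      inner ℝ (gr (v ∘ (C.φ (C.idx x)).symm) (C.φ (C.idx x) x))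
        (gr (v' ∘ (C.φ (C.idx x)).symm) (C.φ (C.idx x) x)) /
        C.ρ (C.idx x) (C.φ (C.idx x) x) := by
  obtain ⟨h1, h2⟩ := idx_spec C x
  have h3 : C.φ (C.idx x) x ∈ ball (0 : ℂ) 3 := ball_subset_ball (by norm_num) h2
  have hr := C.ρ_pos (C.idx x) _ h3
  unfold CSurf.grad
  rw [inner_coord, inner_coord, Complex.div_ofReal_re, Complex.div_ofReal_re,
    Complex.div_ofReal_im, Complex.div_ofReal_im]
  rw [div_mul_div_comm, div_mul_div_comm, Real.mul_self_sqrt hr.le]
  ring

theorem norm_grad (C : CSurf S) {v : S → ℝ} (hv : C.IsC1 v) {x : S} {i : Fin C.n} (hx : x ∈ (C.φ i).source) :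
    ‖C.grad v x‖ ^ 2 = ‖gr (v ∘ (C.φ i).symm) (C.φ i x)‖ ^ 2 / C.ρ i (C.φ i x) := by
  rw [← real_inner_self_eq_norm_sq, ← real_inner_self_eq_norm_sq, grad_inner,
    grad_two C hv hv hx (idx_spec C x).1]

/-- The inner product of two gradients, in any chart. -/
theorem inner_grad (C : CSurf S) {v v' : S → ℝ} (hv : C.IsC1 v) (hv' : C.IsC1 v') {x : S} {i : Fin C.n}
    (hx : x ∈ (C.φ i).source) :
    inner ℝ (C.grad v x) (C.grad v' x) =
      inner ℝ (gr (v ∘ (C.φ i).symm) (C.φ i x)) (gr (v' ∘ (C.φ i).symm) (C.φ i x)) / C.ρ i (C.φ i x) := by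
  rw [grad_inner, grad_two C hv hv' hx (idx_spec C x).1]

variable [BorelSpace S]

/-- The parametrisation of the source of a chart. -/
private noncomputable def par (C : CSurf S) (i : Fin C.n) : (C.φ i).target → S :=
  fun z => (C.φ i).symm z

omit [MeasurableSpace S] [BorelSpace S] in
private lemma par_open {T : Type*} [TopologicalSpace T] (e : OpenPartialHomeomorph T ℂ) :
    IsOpenEmbedding (fun z : e.target => e.symm z) :=
  e.symm.isOpenEmbedding_restrict

private lemma par_me (C : CSurf S) (i : Fin C.n) : MeasurableEmbedding (par C i) :=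
  (par_open (C.φ i)).measurableEmbedding

private noncomputable def dens (C : CSurf S) (i : Fin C.n) : Measure ℂ :=
  (volume.restrict (ball (0 : ℂ) 3)).withDensity (fun z => ENNReal.ofReal (C.ρ i z))

private lemma tgt_meas (C : CSurf S) (i : Fin C.n) : MeasurableSet (C.φ i).target :=
  (C.φ i).open_target.measurableSet

private lemma src_meas (C : CSurf S) (i : Fin C.n) : MeasurableSet (C.φ i).source :=
  (C.φ i).open_source.measurableSet

private lemma area_par (C : CSurf S) (i : Fin C.n) :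
    C.area.restrict (C.φ i).source = ((dens C i).comap Subtype.val).map (par C i) := by
  ext B hB
  rw [Measure.restrict_apply hB, (par_me C i).map_apply]
  have himg : C.φ i '' (B ∩ (C.φ i).source) = Subtype.val '' (par C i ⁻¹' B) := by
    ext z
    constructor
    · rintro ⟨x, ⟨hxB, hxs⟩, rfl⟩
      refine ⟨⟨C.φ i x, (C.φ i).map_source hxs⟩, ?_, rfl⟩
      rw [mem_preimage]
      unfold par
      rw [(C.φ i).left_inv hxs]
      exact hxB
    · rintro ⟨⟨z, hz⟩, hzB, rfl⟩
      refine ⟨(C.φ i).symm z, ⟨hzB, (C.φ i).map_target hz⟩, (C.φ i).right_inv hz⟩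
  have hm : MeasurableSet (Subtype.val '' (par C i ⁻¹' B)) :=
    (MeasurableEmbedding.subtype_coe (tgt_meas C i)).measurableSet_image.2
      ((par_me C i).measurable hB)
  have hsub : Subtype.val '' (par C i ⁻¹' B) ⊆ ball (0 : ℂ) 3 := by
    rintro _ ⟨⟨z, hz⟩, _, rfl⟩
    rw [← C.target i]
    exact hz
  rw [C.area_eq i _ (hB.inter (src_meas C i)) inter_subset_right, himg,
    (MeasurableEmbedding.subtype_coe (tgt_meas C i)).comap_apply]
  unfold dens
  rw [withDensity_apply _ hm, Measure.restrict_restrict hm, inter_eq_left.2 hsub]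

private lemma dens_tgt (C : CSurf S) (i : Fin C.n) : (dens C i).restrict (C.φ i).target = dens C i := by
  unfold dens
  rw [restrict_withDensity (tgt_meas C i), C.target i, Measure.restrict_restrict measurableSet_ball,
    inter_self]

theorem area_map (C : CSurf S) (i : Fin C.n) : (C.area.restrict (C.φ i).source).map (C.φ i) =
    (volume.restrict (ball 0 3)).withDensity (fun z => ENNReal.ofReal (C.ρ i z)) := by
  have hae : AEMeasurable (C.φ i) (C.area.restrict (C.φ i).source) :=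
    (C.φ i).continuousOn.aemeasurable (src_meas C i)
  have h1 := area_par C i
  rw [h1] at hae ⊢
  rw [AEMeasurable.map_map_of_aemeasurable hae (par_me C i).measurable.aemeasurable]
  have h2 : (C.φ i) ∘ par C i = Subtype.val := by
    funext z
    exact (C.φ i).right_inv z.2
  rw [h2, map_comap_subtype_coe (tgt_meas C i), dens_tgt]
  rfl

private lemma rho_ae (C : CSurf S) (i : Fin C.n) :
    AEMeasurable (C.ρ i) (volume.restrict (ball (0 : ℂ) 3)) :=
  (C.ρ_smooth i).continuousOn.aemeasurable measurableSet_ball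

theorem integral_chart {E : Type*} [NormedAddCommGroup E] [NormedSpace ℝ E] (C : CSurf S) (i : Fin C.n) (f : S → E) :
    ∫ x in (C.φ i).source, f x ∂C.area = ∫ z in ball (0 : ℂ) 3, C.ρ i z • f ((C.φ i).symm z) := by
  rw [area_par, (par_me C i).integral_map]
  have h1 := integral_subtype_comap (μ := dens C i) (tgt_meas C i) (fun z => f ((C.φ i).symm z))
  have h2 : ∫ z, f (par C i z) ∂(dens C i).comap Subtype.val =
      ∫ z : (C.φ i).target, f ((C.φ i).symm (z : ℂ)) ∂(dens C i).comap Subtype.val := rfl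
  rw [h2, h1, dens_tgt]
  unfold dens
  rw [integral_withDensity_eq_integral_toReal_smul₀ (rho_ae C i).ennreal_ofReal
    (Eventually.of_forall fun z => ENNReal.ofReal_lt_top)]
  refine setIntegral_congr_fun measurableSet_ball fun z hz => ?_
  rw [ENNReal.toReal_ofReal (C.ρ_pos i z hz).le]

theorem integrable_chart {E : Type*} [NormedAddCommGroup E] [NormedSpace ℝ E] (C : CSurf S) (i : Fin C.n) (f : S → E) :
    IntegrableOn f (C.φ i).source C.area ↔ IntegrableOn (fun z => C.ρ i z • f ((C.φ i).symm z)) (ball (0 : ℂ) 3) := by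
  unfold IntegrableOn
  rw [area_par, (par_me C i).integrable_map_iff]
  have h2 : f ∘ par C i = (fun z => f ((C.φ i).symm z)) ∘ (Subtype.val : (C.φ i).target → ℂ) := rfl
  rw [h2, ← integrableOn_iff_comap_subtypeVal (tgt_meas C i), IntegrableOn, dens_tgt]
  unfold dens
  rw [integrable_withDensity_iff_integrable_smul₀' (rho_ae C i).ennreal_ofReal
    (Eventually.of_forall fun z => ENNReal.ofReal_lt_top)]
  refine integrable_congr ?_
  filter_upwards [ae_restrict_mem measurableSet_ball] with z hz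
  rw [ENNReal.toReal_ofReal (C.ρ_pos i z hz).le]

/-- The preimage of the unit disc. -/
private def Dk (C : CSurf S) (i : Fin C.n) : Set S :=
  (C.φ i).source ∩ C.φ i ⁻¹' ball (0 : ℂ) 1

private lemma Dk_open (C : CSurf S) (i : Fin C.n) : IsOpen (Dk C i) :=
  (C.φ i).isOpen_inter_preimage isOpen_ball

theorem area_finite (C : CSurf S) : IsFiniteMeasure C.area := by
  constructor
  have h1 : (univ : Set S) ⊆ ⋃ i, Dk C i := by
    intro x _
    obtain ⟨i, hi, hi'⟩ := C.cover x
    exact mem_iUnion.2 ⟨i, hi, hi'⟩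
  refine (measure_mono h1).trans_lt ((measure_iUnion_fintype_le _ _).trans_lt ?_)
  refine ENNReal.sum_lt_top.2 fun i _ => ?_
  rw [C.area_eq i _ (Dk_open C i).measurableSet inter_subset_left]
  have h2 : C.φ i '' (Dk C i) ⊆ closedBall (0 : ℂ) 1 := by
    rintro _ ⟨x, hx, rfl⟩
    exact ball_subset_closedBall hx.2
  have hc : IsCompact (closedBall (0 : ℂ) 1) := isCompact_closedBall _ _
  have hsub : closedBall (0 : ℂ) 1 ⊆ ball 0 3 := closedBall_subset_ball (by norm_num)
  obtain ⟨K, hK⟩ := hc.exists_bound_of_continuousOn ((C.ρ_smooth i).continuousOn.mono hsub)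
  calc ∫⁻ z in C.φ i '' (Dk C i), ENNReal.ofReal (C.ρ i z)
      ≤ ∫⁻ z in closedBall (0 : ℂ) 1, ENNReal.ofReal (C.ρ i z) := lintegral_mono_set h2
    _ ≤ ∫⁻ _ in closedBall (0 : ℂ) 1, ENNReal.ofReal K := by
        refine setLIntegral_mono measurable_const fun z hz => ?_
        exact ENNReal.ofReal_le_ofReal ((le_abs_self _).trans (hK z hz))
    _ = ENNReal.ofReal K * volume (closedBall (0 : ℂ) 1) := by
        rw [setLIntegral_const]
    _ < ⊤ := ENNReal.mul_lt_top ENNReal.ofReal_lt_top hc.measure_lt_top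

private lemma idx_iff (C : CSurf S) (x : S) (i : Fin C.n) :
    C.idx x = i ↔ x ∈ Dk C i ∧ ∀ j < i, x ∉ Dk C j := by
  classical
  have hle : ∀ j, x ∈ Dk C j → C.idx x ≤ j := by
    intro j hj
    unfold CSurf.idx
    refine Finset.min'_le _ _ ?_
    rw [Finset.mem_filter]
    exact ⟨Finset.mem_univ j, hj⟩
  constructor
  · rintro rfl
    refine ⟨idx_spec C x, fun j hj hj' => ?_⟩
    exact absurd (hle j hj') (not_le.2 hj)
  · rintro ⟨h1, h2⟩
    refine le_antisymm (hle i h1) ?_
    by_contra h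
    exact h2 _ (not_le.1 h) (idx_spec C x)

private lemma idx_set (C : CSurf S) (i : Fin C.n) : MeasurableSet (C.idx ⁻¹' {i}) := by
  have : C.idx ⁻¹' {i} = Dk C i ∩ ⋂ j, ⋂ (_ : j < i), (Dk C j)ᶜ := by
    ext x
    rw [mem_preimage, mem_singleton_iff, idx_iff]
    simp
  rw [this]
  refine (Dk_open C i).measurableSet.inter ?_
  exact MeasurableSet.iInter fun j => MeasurableSet.iInter fun _ =>
    (Dk_open C j).measurableSet.compl

theorem measurable_idx (C : CSurf S) : Measurable C.idx :=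
  measurable_to_countable' fun i => idx_set C i

omit [BorelSpace S] in
private lemma gi_cont (C : CSurf S) {v : S → ℝ} (hv : C.IsC1 v) (i : Fin C.n) :
    ContinuousOn (fun z => gr (v ∘ (C.φ i).symm) z / (Real.sqrt (C.ρ i z) : ℂ)) (ball (0 : ℂ) 3) := by
  have h1 : ContinuousOn (fderiv ℝ (v ∘ (C.φ i).symm)) (ball (0 : ℂ) 3) :=
    (hv i).continuousOn_fderiv_of_isOpen isOpen_ball le_rfl
  have h2 : ContinuousOn (fun z => gr (v ∘ (C.φ i).symm) z) (ball (0 : ℂ) 3) := by
    have e : (fun z => gr (v ∘ (C.φ i).symm) z) = fun z =>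
        ((fderiv ℝ (v ∘ (C.φ i).symm) z 1 : ℝ) : ℂ) +
          ((fderiv ℝ (v ∘ (C.φ i).symm) z Complex.I : ℝ) : ℂ) * Complex.I := by
      funext z
      unfold gr dx dy
      rw [Complex.mk_eq_add_mul_I]
    rw [e]
    have h3 : ContinuousOn (fun z => fderiv ℝ (v ∘ (C.φ i).symm) z 1) (ball (0 : ℂ) 3) :=
      h1.clm_apply continuousOn_const
    have h4 : ContinuousOn (fun z => fderiv ℝ (v ∘ (C.φ i).symm) z Complex.I) (ball (0 : ℂ) 3) :=
      h1.clm_apply continuousOn_const
    exact (Complex.continuous_ofReal.comp_continuousOn h3).add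
      ((Complex.continuous_ofReal.comp_continuousOn h4).mul continuousOn_const)
  refine h2.div ?_ ?_
  · exact Complex.continuous_ofReal.comp_continuousOn
      (Real.continuous_sqrt.comp_continuousOn (C.ρ_smooth i).continuousOn)
  · intro z hz
    have := Real.sqrt_pos.2 (C.ρ_pos i z hz)
    exact_mod_cast this.ne'

theorem measurable_grad (C : CSurf S) {v : S → ℝ} (hv : C.IsC1 v) : Measurable (C.grad v) := by
  intro B hB
  have h1 : C.grad v ⁻¹' B = ⋃ i, (C.idx ⁻¹' {i} ∩ ((C.φ i).source ∩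
      (fun x => gr (v ∘ (C.φ i).symm) (C.φ i x) / (Real.sqrt (C.ρ i (C.φ i x)) : ℂ)) ⁻¹' B)) := by
    ext x
    rw [mem_iUnion]
    constructor
    · intro hx
      exact ⟨C.idx x, rfl, (idx_spec C x).1, hx⟩
    · rintro ⟨i, hi, _, hi2⟩
      rw [mem_preimage, mem_singleton_iff] at hi
      subst hi
      exact hi2
  rw [h1]
  refine MeasurableSet.iUnion fun i => (idx_set C i).inter ?_
  have hc : ContinuousOn (fun x => gr (v ∘ (C.φ i).symm) (C.φ i x) /
      (Real.sqrt (C.ρ i (C.φ i x)) : ℂ)) (C.φ i).source := by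
    refine (gi_cont C hv i).comp (C.φ i).continuousOn ?_
    intro x hx
    rw [← C.target i]
    exact (C.φ i).map_source hx
  have hm : Measurable ((C.φ i).source.domRestrict (fun x => gr (v ∘ (C.φ i).symm) (C.φ i x) /
      (Real.sqrt (C.ρ i (C.φ i x)) : ℂ))) := (continuousOn_iff_continuous_domRestrict.1 hc).measurable
  have h2 := (MeasurableEmbedding.subtype_coe (src_meas C i)).measurableSet_image.2 (hm hB)
  convert h2 using 1
  ext x
  constructor
  · rintro ⟨hx1, hx2⟩
    exact ⟨⟨x, hx1⟩, hx2, rfl⟩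
  · rintro ⟨⟨y, hy⟩, hy2, rfl⟩
    exact ⟨hy, hy2⟩

/-- The gradient of a function of class `C^1` is bounded. -/
theorem bounded_grad [CompactSpace S] (C : CSurf S) {v : S → ℝ} (hv : C.IsC1 v) : ∃ K, ∀ x, ‖C.grad v x‖ ≤ K := by
  have hc : IsCompact (closedBall (0 : ℂ) 1) := isCompact_closedBall _ _
  have hsub : closedBall (0 : ℂ) 1 ⊆ ball 0 3 := closedBall_subset_ball (by norm_num)
  choose K hK using fun i => hc.exists_bound_of_continuousOn ((gi_cont C hv i).mono hsub)
  refine ⟨∑ i, |K i|, fun x => ?_⟩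
  have h1 := hK (C.idx x) (C.φ (C.idx x) x) (ball_subset_closedBall (idx_spec C x).2)
  refine (h1.trans (le_abs_self _)).trans ?_
  exact Finset.single_le_sum (f := fun i => |K i|) (fun i _ => abs_nonneg _)
    (Finset.mem_univ (C.idx x))

end Pool.Agent.Helper53.CL.H
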