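import Pool.Agent.Helper53.CL.Iface
import Pool.Agent.Helper53.CL.H.H02

/-!
# CL-H03: solutions on the surface give local sequences in the charts (about 200 lines)

`w s x = exp (s * b x)`, `a = C.a (w τ) i`, `aj = C.a (w (t j)) i`: smooth and positive on `ball 0 3` (`ρ i` is, `b` is smooth in
the chart).  `aj_lim`: `G(s, z) = ρ i z * exp (s * b ((φ i).symm z))` is smooth on `ℝ × ball 0 3`; the map
`(s, z) ↦ iteratedFDeriv ℝ k (G(s, ·)) z` is continuous there (it is `iteratedFDeriv ℝ k G (s, z)` composed with the inclusion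
`v ↦ (0, v)`), hence uniformly continuous on the compact set `[0,1] × closedBall 0 2`, and `t j → τ ∈ [0, 1]`.
`sol`: `IsSol` in the chart.  `energy`: `∫ z in ball 0 2, ed = ∫ over (φ i).symm '' ball 0 2 of the energy density ≤ C.energy`
(`integral_chart`, `norm_grad`, the density is nonnegative and integrable).  `modica`, `bounds`: `Unif`.
-/

namespace Pool.Agent.Helper53.CL.H

open MeasureTheory Filter Topology Metric Set Iface
open scoped ContDiff Real ENNReal

universe u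

variable {S : Type u} [TopologicalSpace S] [CompactSpace S] [T2Space S] [MeasurableSpace S] [BorelSpace S]

/-- The energy density on the surface. -/
noncomputable def eS (C : CSurf S) (ε : ℝ) (w u : S → ℝ) (x : S) : ℝ :=
  ε / 2 * ‖C.grad u x‖ ^ 2 + 1 / ε * (w x * (1 - Real.cos (u x)))

theorem eS_chart (C : CSurf S) {ε : ℝ} {w u : S → ℝ} (hu : C.IsSmooth u) (i : Fin C.n) {z : ℂ}
    (hz : z ∈ ball (0 : ℂ) 3) :
    C.ρ i z * eS C ε w u ((C.φ i).symm z) = ed ε (C.a w i) (u ∘ (C.φ i).symm) z := by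
  have hzt : z ∈ (C.φ i).target := by
    rw [C.target i]
    exact hz
  have h1 := norm_grad C (isC1_of_isSmooth C hu) ((C.φ i).map_target hzt)
  rw [(C.φ i).right_inv hzt] at h1
  have hρ := C.ρ_pos i z hz
  unfold eS ed CSurf.a
  rw [h1]
  simp only [Function.comp_apply]
  field_simp

theorem eS_nonneg (C : CSurf S) {ε : ℝ} (hε : 0 < ε) {w u : S → ℝ} (hp : ∀ x, 0 < w x) (x : S) :
    0 ≤ eS C ε w u x := by
  unfold eS
  have h1 : 0 ≤ 1 - Real.cos (u x) := by linarith [Real.cos_le_one (u x)]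
  have h2 := hp x
  positivity

theorem integrable_eS (C : CSurf S) {ε : ℝ} {w u : S → ℝ} (hw : C.IsSmooth w) (hu : C.IsSmooth u) :
    Integrable (eS C ε w u) C.area := by
  have := area_finite C
  have hwc : Continuous w := continuous_of_isC1 C (isC1_of_isSmooth C hw)
  have huc : Continuous u := continuous_of_isC1 C (isC1_of_isSmooth C hu)
  obtain ⟨K, hK⟩ := bounded_grad C (isC1_of_isSmooth C hu)
  obtain ⟨M, hM⟩ := isCompact_univ.exists_bound_of_continuousOn (hwc.continuousOn (s := Set.univ))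
  have hmeas : Measurable (eS C ε w u) := by
    unfold eS
    exact (((measurable_grad C (isC1_of_isSmooth C hu)).norm.pow_const 2).const_mul _).add
      ((hwc.measurable.mul ((measurable_const.sub (Real.measurable_cos.comp huc.measurable)))).const_mul _)
  refine Integrable.of_bound hmeas.aestronglyMeasurable (|ε / 2| * K ^ 2 + |1 / ε| * (M * 2)) ?_
  filter_upwards with x
  unfold eS
  have h1 : ‖C.grad u x‖ ^ 2 ≤ K ^ 2 := pow_le_pow_left₀ (norm_nonneg _) (hK x) 2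
  have h2 : |w x| ≤ M := hM x (Set.mem_univ x)
  have h3 : |1 - Real.cos (u x)| ≤ 2 := by
    rw [abs_le]
    constructor <;> linarith [Real.cos_le_one (u x), Real.neg_one_le_cos (u x)]
  refine (norm_add_le _ _).trans (add_le_add ?_ ?_)
  · rw [norm_mul, Real.norm_eq_abs, Real.norm_eq_abs, abs_of_nonneg (by positivity : 0 ≤ ‖C.grad u x‖ ^ 2)]
    exact mul_le_mul_of_nonneg_left h1 (abs_nonneg _)
  · rw [norm_mul, norm_mul, Real.norm_eq_abs, Real.norm_eq_abs, Real.norm_eq_abs]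
    refine mul_le_mul_of_nonneg_left ?_ (abs_nonneg _)
    exact mul_le_mul h2 h3 (abs_nonneg _) ((abs_nonneg _).trans h2)

private theorem contDiffAt_iter {f : ℝ → ℂ → ℝ} {U : Set ℂ}
    (hf : ∀ s : ℝ, ∀ z ∈ U, ContDiffAt ℝ ∞ (fun p : ℝ × ℂ => f p.1 p.2) (s, z)) (k : ℕ) :
    ∀ s : ℝ, ∀ z ∈ U, ContDiffAt ℝ ∞ (fun p : ℝ × ℂ => iteratedFDeriv ℝ k (f p.1) p.2) (s, z) := by
  induction k with
  | zero =>
    intro s z hz
    have h1 := (continuousMultilinearCurryFin0 ℝ ℂ ℝ).symm.contDiff.comp_contDiffAt (s, z)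
      (hf s z hz)
    exact h1
  | succ k ih =>
    intro s z hz
    have h1 : ContDiffAt ℝ ∞ (Function.uncurry
        (fun (p : ℝ × ℂ) (y : ℂ) => iteratedFDeriv ℝ k (f p.1) y)) ((s, z), z) := by
      have h2 : ContDiffAt ℝ ∞ (fun q : (ℝ × ℂ) × ℂ => (q.1.1, q.2)) ((s, z), z) := by
        apply ContDiff.contDiffAt
        fun_prop
      exact ContDiffAt.comp (g := fun p : ℝ × ℂ => iteratedFDeriv ℝ k (f p.1) p.2)
        (f := fun q : (ℝ × ℂ) × ℂ => (q.1.1, q.2)) ((s, z), z) (ih s z hz) h2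
    have h3 : ContDiffAt ℝ ∞ (fun p : ℝ × ℂ => fderiv ℝ (iteratedFDeriv ℝ k (f p.1)) p.2) (s, z) :=
      ContDiffAt.fderiv (f := fun (p : ℝ × ℂ) (y : ℂ) => iteratedFDeriv ℝ k (f p.1) y)
        (g := Prod.snd) (m := ∞) (n := ∞) h1 contDiffAt_snd (by simp)
    exact (continuousMultilinearCurryLeftEquiv ℝ (fun _ : Fin (k + 1) => ℂ)
      ℝ).symm.contDiff.comp_contDiffAt (s, z) h3

theorem locSeq_of (hU : Unif S) (C : CSurf S) {b : S → ℝ} (hb : C.IsSmooth b) {ε t : ℕ → ℝ} {τ : ℝ} {u : ℕ → S → ℝ}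
    (hε : ∀ j, 0 < ε j) (hε1 : ∀ j, ε j ≤ 1) (hε0 : Tendsto ε atTop (𝓝 0)) (ht : ∀ j, t j ∈ Icc (0 : ℝ) 1)
    (htτ : Tendsto t atTop (𝓝 τ)) (hu : ∀ j, C.IsSol (ε j) (fun x => Real.exp (t j * b x)) (u j))
    (hE : ∃ E, ∀ j, C.energy (ε j) (fun x => Real.exp (t j * b x)) (u j) ≤ E) (i : Fin C.n) :
    LocSeq (C.a (fun x => Real.exp (τ * b x)) i) (fun j => C.a (fun x => Real.exp (t j * b x)) i) ε
      (fun j => u j ∘ (C.φ i).symm) := by
  have hsmooth : ∀ s : ℝ, ContDiffOn ℝ ∞ (C.a (fun x => Real.exp (s * b x)) i) (ball 0 3) := fun s =>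
    (C.ρ_smooth i).mul ((contDiffOn_const.mul (hb i)).exp)
  have hpos : ∀ s : ℝ, ∀ z ∈ ball (0 : ℂ) 3, 0 < C.a (fun x => Real.exp (s * b x)) i z := fun s z hz =>
    mul_pos (C.ρ_pos i z hz) (Real.exp_pos _)
  have hsm : ∀ s : ℝ, C.IsSmooth (fun x => Real.exp (s * b x)) := fun s i =>
    (contDiffOn_const.mul (hb i)).exp
  refine ⟨hsmooth τ, hpos τ, fun j => hsmooth _, fun j => hpos _, fun k => ?_, hε, hε0, fun j => ?_, ?_, ?_, ?_⟩
  · -- convergence of the coefficients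
    let f : ℝ → ℂ → ℝ := fun s => C.a (fun x => Real.exp (s * b x)) i
    have hf : ∀ s : ℝ, ∀ z ∈ ball (0 : ℂ) 3, ContDiffAt ℝ ∞ (fun p : ℝ × ℂ => f p.1 p.2) (s, z) := by
      intro s z hz
      have h1 : ContDiffAt ℝ ∞ (C.ρ i) z := (C.ρ_smooth i).contDiffAt (isOpen_ball.mem_nhds hz)
      have h2 : ContDiffAt ℝ ∞ (b ∘ (C.φ i).symm) z := (hb i).contDiffAt (isOpen_ball.mem_nhds hz)
      have h3 : ContDiffAt ℝ ∞ (fun p : ℝ × ℂ => C.ρ i p.2) (s, z) :=
        ContDiffAt.comp (g := C.ρ i) (f := Prod.snd) (s, z) h1 contDiffAt_snd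
      have h4 : ContDiffAt ℝ ∞ (fun p : ℝ × ℂ => (b ∘ (C.φ i).symm) p.2) (s, z) :=
        ContDiffAt.comp (g := b ∘ (C.φ i).symm) (f := Prod.snd) (s, z) h2 contDiffAt_snd
      exact h3.mul ((contDiffAt_fst.mul h4).exp)
    have hcont : ContinuousOn (fun p : ℝ × ℂ => iteratedFDeriv ℝ k (f p.1) p.2)
        (Icc (0 : ℝ) 1 ×ˢ closedBall (0 : ℂ) 2) := by
      rintro ⟨s, z⟩ ⟨_, hz⟩
      exact (contDiffAt_iter hf k s z
        (closedBall_subset_ball (by norm_num) hz)).continuousAt.continuousWithinAt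
    have huc := (isCompact_Icc.prod (isCompact_closedBall (0 : ℂ) 2)).uniformContinuousOn_of_continuous hcont
    rw [Metric.uniformContinuousOn_iff] at huc
    rw [Metric.tendstoUniformlyOn_iff]
    intro η hη
    obtain ⟨δ, hδ, hδ'⟩ := huc η hη
    have hτ : τ ∈ Icc (0 : ℝ) 1 := isClosed_Icc.mem_of_tendsto htτ (Eventually.of_forall ht)
    have hev := Metric.tendsto_nhds.1 htτ δ hδ
    filter_upwards [hev] with j hj z hz
    have h5 := hδ' (τ, z) ⟨hτ, hz⟩ (t j, z) ⟨ht j, hz⟩ (by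
      rw [Prod.dist_eq]
      simp only [dist_self]
      rw [dist_comm]
      exact max_lt hj hδ)
    exact h5
  · exact ⟨(hu j).smooth i, (hu j).eq i, fun z _ => (hu j).nonneg _, fun z _ => (hu j).le _⟩
  · obtain ⟨E, hE⟩ := hE
    refine ⟨E, fun j => le_trans ?_ (hE j)⟩
    have hsj := hsm (t j)
    have hint := integrable_eS C (ε := ε j) hsj (hu j).smooth
    have hnn : ∀ x, 0 ≤ eS C (ε j) (fun x => Real.exp (t j * b x)) (u j) x :=
      eS_nonneg C (hε j) (fun x => Real.exp_pos _)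
    have h1 : C.energy (ε j) (fun x => Real.exp (t j * b x)) (u j) =
        ∫ x, eS C (ε j) (fun x => Real.exp (t j * b x)) (u j) x ∂C.area := rfl
    have h2 : ∫ x in (C.φ i).source, eS C (ε j) (fun x => Real.exp (t j * b x)) (u j) x ∂C.area ≤
        ∫ x, eS C (ε j) (fun x => Real.exp (t j * b x)) (u j) x ∂C.area :=
      setIntegral_le_integral hint (Eventually.of_forall hnn)
    rw [integral_chart] at h2
    have h3 := (integrable_chart C i (eS C (ε j) (fun x => Real.exp (t j * b x)) (u j))).1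
      hint.integrableOn
    have h4 : ∫ z in ball (0 : ℂ) 2, ed (ε j) (C.a (fun x => Real.exp (t j * b x)) i)
        (u j ∘ (C.φ i).symm) z = ∫ z in ball (0 : ℂ) 2, C.ρ i z •
          eS C (ε j) (fun x => Real.exp (t j * b x)) (u j) ((C.φ i).symm z) := by
      apply setIntegral_congr_fun measurableSet_ball
      intro z hz
      have hz3 : z ∈ ball (0 : ℂ) 3 := ball_subset_ball (by norm_num) hz
      exact (eS_chart C (hu j).smooth i hz3).symm
    rw [h1]
    show ∫ z in ball (0 : ℂ) 2, ed (ε j) (C.a (fun x => Real.exp (t j * b x)) i)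
        (u j ∘ (C.φ i).symm) z ≤ _
    rw [h4]
    refine le_trans ?_ h2
    apply setIntegral_mono_set h3
    · rw [Filter.EventuallyLE, ae_restrict_iff' measurableSet_ball]
      filter_upwards with z hz
      exact mul_nonneg (C.ρ_pos i z hz).le (hnn _)
    · exact (ball_subset_ball (by norm_num)).eventuallyLE
  · obtain ⟨_, K, hK⟩ := hU C b hb
    exact ⟨K, fun j z hz => hK (t j) (ht j) (ε j) ⟨hε j, hε1 j⟩ (u j) (hu j) i z hz⟩
  · intro k
    obtain ⟨h1, _⟩ := hU C b hb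
    obtain ⟨K, hK⟩ := h1 k
    exact ⟨K, fun j z hz => hK (t j) (ht j) (ε j) ⟨hε j, hε1 j⟩ (u j) (hu j) i z hz⟩

end Pool.Agent.Helper53.CL.H
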