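import Pool.Agent.Helper53.CL.H.H03
import Pool.Agent.Helper85.CL.Compact

/-!
# CL-H04: the limit measure of a sequence of solutions, and its charts (about 200 lines)

`chartMeas C μ i` is `μ` in the chart `i`.
`exists_limit`: the measures with density `eS` with respect to the area have total mass `C.energy` (definition of `energy`),
bounded; `S` is compact, Hausdorff, second countable, so metrizable: `Pool.Agent.Helper85.CL.exists_subseq` with `K = univ`.
`econv_of`: for `f` continuous on `ℂ` with compact support in `ball 0 2`, `F = f ∘ φ i` on the source of `φ i`, `0` elsewhere, is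
continuous on `S` (the set `(φ i).symm '' tsupport f` is compact, so closed); `∫ F eS dA = ∫ z, f z * ed z` (`integral_chart`,
`eS_chart`) and `∫ F dμ = ∫ f d(chartMeas C μ i)`.
`lower_null`: `chartMeas` of a point `z ∈ ball 0 3` is `μ {(φ i).symm z}`.
`ae_chart`: almost everywhere statements.
-/

namespace Pool.Agent.Helper53.CL.H

open MeasureTheory Filter Topology Metric Set Iface
open scoped ContDiff Real ENNReal

universe u

variable {S : Type u} [TopologicalSpace S] [CompactSpace S] [T2Space S] [MeasurableSpace S] [BorelSpace S]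

/-- The measure `μ` in the chart `i`. -/
noncomputable def chartMeas (C : CSurf S) (μ : Measure S) (i : Fin C.n) : Measure ℂ :=
  (μ.restrict (C.φ i).source).map (C.φ i)

instance (C : CSurf S) (μ : Measure S) [IsFiniteMeasure μ] (i : Fin C.n) : IsFiniteMeasure (chartMeas C μ i) := by
  unfold chartMeas
  infer_instance

/-- Weak convergence of the energy densities on the surface. -/
def SConv (C : CSurf S) (ε : ℕ → ℝ) (w : ℕ → S → ℝ) (u : ℕ → S → ℝ) (μ : Measure S) : Prop :=
  ∀ f : S → ℝ, Continuous f → Tendsto (fun j => ∫ x, f x * eS C (ε j) (w j) (u j) x ∂C.area) atTop (𝓝 (∫ x, f x ∂μ))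

theorem exists_limit (C : CSurf S) {ε : ℕ → ℝ} {w u : ℕ → S → ℝ} (hε : ∀ j, 0 < ε j) (hw : ∀ j, C.IsSmooth (w j))
    (hp : ∀ j x, 0 < w j x) (hu : ∀ j, C.IsSmooth (u j)) (hE : ∃ E, ∀ j, C.energy (ε j) (w j) (u j) ≤ E) :
    ∃ (σ : ℕ → ℕ) (μ : Measure S), StrictMono σ ∧ IsFiniteMeasure μ ∧ SConv C (ε ∘ σ) (w ∘ σ) (u ∘ σ) μ := by
  obtain ⟨E, hE⟩ := hE
  have hsc : SecondCountableTopology S := secondCountable C
  have hmet : TopologicalSpace.MetrizableSpace S :=
    TopologicalSpace.metrizableSpace_of_t3_secondCountable S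
  letI : MetricSpace S := TopologicalSpace.metrizableSpaceMetric S
  have hint : ∀ j, Integrable (eS C (ε j) (w j) (u j)) C.area := fun j =>
    integrable_eS C (hw j) (hu j)
  have hnn : ∀ j x, 0 ≤ eS C (ε j) (w j) (u j) x := fun j x => eS_nonneg C (hε j) (hp j) x
  obtain ⟨ρ, hρ⟩ : ∃ ρ : ℕ → Measure S, ρ = fun j =>
    C.area.withDensity (fun x => ENNReal.ofReal (eS C (ε j) (w j) (u j) x)) := ⟨_, rfl⟩
  have hlin : ∀ j, ∫⁻ x, ENNReal.ofReal (eS C (ε j) (w j) (u j) x) ∂C.area =
      ENNReal.ofReal (∫ x, eS C (ε j) (w j) (u j) x ∂C.area) := fun j =>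
    (ofReal_integral_eq_lintegral_ofReal (hint j) (ae_of_all _ (hnn j))).symm
  have huniv : ∀ j, ρ j univ = ENNReal.ofReal (∫ x, eS C (ε j) (w j) (u j) x ∂C.area) := by
    intro j
    rw [hρ, ← hlin j, withDensity_apply _ MeasurableSet.univ, Measure.restrict_univ]
  have hfin : ∀ j, IsFiniteMeasure (ρ j) := by
    intro j
    refine ⟨?_⟩
    rw [huniv j]
    exact ENNReal.ofReal_lt_top
  have hmass : ∀ j, (ρ j).real univ ≤ E := by
    intro j
    rw [Measure.real, huniv j, ENNReal.toReal_ofReal (integral_nonneg (hnn j))]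
    exact hE j
  obtain ⟨σ, hσ, μ, hμ, -, hlim⟩ := Pool.Agent.Helper85.CL.exists_subseq (E := S)
    isCompact_univ ρ hfin hmass (fun j => by simp)
  refine ⟨σ, μ, hσ, hμ, ?_⟩
  intro f hf
  refine (hlim f hf).congr ?_
  intro j
  rw [hρ]
  simp only [Function.comp_apply]
  rw [integral_withDensity_eq_integral_toReal_smul₀
    ((hint (σ j)).1.aemeasurable.ennreal_ofReal) (ae_of_all _ fun x => ENNReal.ofReal_lt_top)]
  refine integral_congr_ae (ae_of_all _ fun x => ?_)
  simp only
  rw [ENNReal.toReal_ofReal (hnn (σ j) x), smul_eq_mul, mul_comm]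

private theorem aem_chart (C : CSurf S) (μ : Measure S) (i : Fin C.n) :
    AEMeasurable (C.φ i) (μ.restrict (C.φ i).source) :=
  (C.φ i).continuousOn.aemeasurable (C.φ i).open_source.measurableSet

theorem econv_of (C : CSurf S) {ε : ℕ → ℝ} {w u : ℕ → S → ℝ} (hu : ∀ j, C.IsSmooth (u j)) {μ : Measure S}
    [IsFiniteMeasure μ] (h : SConv C ε w u μ) (i : Fin C.n) :
    EConv (fun j => C.a (w j) i) ε (fun j => u j ∘ (C.φ i).symm) (chartMeas C μ i) := by
  classical
  intro f hf hfc hfs
  have htar := C.target i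
  have hf2 : ∀ z, z ∉ ball (0 : ℂ) 2 → f z = 0 := fun z hz =>
    image_eq_zero_of_notMem_tsupport fun hz2 => hz (hfs hz2)
  obtain ⟨F, hF⟩ : ∃ F : S → ℝ, F = (C.φ i).source.indicator (f ∘ C.φ i) := ⟨_, rfl⟩
  obtain ⟨Kc, hKc⟩ : ∃ Kc : Set S, Kc = (C.φ i).symm '' tsupport f := ⟨_, rfl⟩
  have hts : tsupport f ⊆ (C.φ i).target := by
    rw [htar]
    exact hfs.trans (ball_subset_ball (by norm_num))
  have hKcl : IsClosed Kc := by
    rw [hKc]
    exact (hfc.isCompact.image_of_continuousOn ((C.φ i).symm.continuousOn.mono hts)).isClosed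
  have hFz : ∀ x ∉ Kc, F x = 0 := by
    intro x hx
    rw [hF]
    by_cases hxs : x ∈ (C.φ i).source
    · rw [indicator_of_mem hxs]
      refine image_eq_zero_of_notMem_tsupport (f := f) fun hx2 => hx ?_
      rw [hKc]
      exact ⟨C.φ i x, hx2, (C.φ i).left_inv hxs⟩
    · rw [indicator_of_notMem hxs]
  have hKs : Kc ⊆ (C.φ i).source := by
    rw [hKc]
    rintro _ ⟨z, hz, rfl⟩
    exact (C.φ i).map_target (hts hz)
  have hFc : Continuous F := by
    rw [continuous_iff_continuousAt]
    intro x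
    by_cases hx : x ∈ (C.φ i).source
    · have h1 : ContinuousAt (f ∘ C.φ i) x :=
        ContinuousAt.comp hf.continuousAt ((C.φ i).continuousAt hx)
      refine h1.congr ?_
      filter_upwards [(C.φ i).open_source.mem_nhds hx] with y hy
      rw [hF, indicator_of_mem hy]
    · have h2 : x ∈ Kcᶜ := fun hx2 => hx (hKs hx2)
      have h3 : ContinuousAt (fun _ : S => (0 : ℝ)) x := continuousAt_const
      refine h3.congr ?_
      filter_upwards [hKcl.isOpen_compl.mem_nhds h2] with y hy
      exact (hFz y hy).symm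
  have hlim := h F hFc
  have hμ : ∫ x, F x ∂μ = ∫ z, f z ∂(chartMeas C μ i) := by
    unfold chartMeas
    rw [integral_map (aem_chart C μ i) hf.aestronglyMeasurable, hF,
      integral_indicator (C.φ i).open_source.measurableSet]
    rfl
  have hj : ∀ j, ∫ x, F x * eS C (ε j) (w j) (u j) x ∂C.area =
      ∫ z, f z * ed (ε j) (C.a (w j) i) (u j ∘ (C.φ i).symm) z := by
    intro j
    have e1 : ∫ x, F x * eS C (ε j) (w j) (u j) x ∂C.area =
        ∫ x in (C.φ i).source, F x * eS C (ε j) (w j) (u j) x ∂C.area := by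
      refine (setIntegral_eq_integral_of_forall_compl_eq_zero ?_).symm
      intro x hx
      rw [hF, indicator_of_notMem hx, zero_mul]
    have e2 : ∫ z in ball (0 : ℂ) 3, f z * ed (ε j) (C.a (w j) i) (u j ∘ (C.φ i).symm) z =
        ∫ z, f z * ed (ε j) (C.a (w j) i) (u j ∘ (C.φ i).symm) z := by
      refine setIntegral_eq_integral_of_forall_compl_eq_zero ?_
      intro z hz
      rw [hf2 z (fun hz2 => hz (ball_subset_ball (by norm_num) hz2)), zero_mul]
    rw [e1, integral_chart, ← e2]
    refine setIntegral_congr_fun measurableSet_ball ?_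
    intro z hz
    have hz2 : z ∈ (C.φ i).target := by
      rw [htar]
      exact hz
    have e3 : F ((C.φ i).symm z) = f z := by
      rw [hF, indicator_of_mem ((C.φ i).map_target hz2)]
      show f (C.φ i ((C.φ i).symm z)) = f z
      rw [(C.φ i).right_inv hz2]
    simp only
    rw [e3, smul_eq_mul, ← eS_chart C (hu j) i hz]
    ring
  rw [← hμ]
  refine hlim.congr ?_
  intro j
  exact hj j

theorem chartMeas_apply (C : CSurf S) (μ : Measure S) (i : Fin C.n) {B : Set ℂ} (hB : MeasurableSet B) :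
    chartMeas C μ i B = μ ((C.φ i).source ∩ C.φ i ⁻¹' B) := by
  unfold chartMeas
  rw [Measure.map_apply_of_aemeasurable (aem_chart C μ i) hB,
    Measure.restrict_apply' (C.φ i).open_source.measurableSet, inter_comm]

theorem chartMeas_singleton (C : CSurf S) (μ : Measure S) (i : Fin C.n) {z : ℂ} (hz : z ∈ ball (0 : ℂ) 3) :
    chartMeas C μ i {z} = μ {(C.φ i).symm z} := by
  rw [chartMeas_apply C μ i (measurableSet_singleton z)]
  congr 1
  have hz2 : z ∈ (C.φ i).target := by
    rw [C.target i]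
    exact hz
  ext x
  constructor
  · rintro ⟨hx, hx2⟩
    have hx3 : C.φ i x = z := hx2
    rw [mem_singleton_iff, ← hx3, (C.φ i).left_inv hx]
  · intro hx
    rw [mem_singleton_iff] at hx
    rw [hx]
    exact ⟨(C.φ i).map_target hz2, (C.φ i).right_inv hz2⟩

theorem ae_chart (C : CSurf S) (μ : Measure S) (i : Fin C.n) {P : ℂ → Prop}
    (h : ∀ᵐ z ∂(chartMeas C μ i), P z) : ∀ᵐ x ∂μ, x ∈ (C.φ i).source → P (C.φ i x) := by
  unfold chartMeas at h
  have h1 := ae_of_ae_map (aem_chart C μ i) h
  exact (ae_restrict_iff' (C.φ i).open_source.measurableSet).1 h1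

end Pool.Agent.Helper53.CL.H
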