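import Pool.Agent.Helper53.CL.H.H04
import Pool.Agent.Helper53.CL.G.G03

/-!
# CL-H05: massive arcs in the charts give massive geodesics on the surface (about 150 lines)

By `ae_chart`, for almost all `x` with `x ∈ source`, `φ i x ∈ ball 0 1` there is `c : ℝ → ℂ` as in `Hloc` with
`c 0 = φ i x`.  `v = deriv c 0` satisfies `a ‖v‖^2 = 1`; take `γ` from `geo_exists` for `x, i, v`.  The curve
`s ↦ (φ i).symm (c s)` is a `GeoOn C w _ (-h) h` (continuous; `ga_change` for the other charts; in the chart `i` it is `c`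
near every time), with the same point and velocity at `0`, so `geoOn_unique` gives `γ s = (φ i).symm (c s)` for `|s| < h`.
For Borel `A ⊆ Ioo (-h) h`: `γ '' A = (φ i).symm '' (c '' A)`, and `c '' A` is a Borel set?  It is an image under a continuous
map that is injective?  Not needed: `μ (γ '' A) = chartMeas (c '' A)` holds for ALL sets `c '' A ⊆ ball 0 3` because
`φ i` is a homeomorphism of the source onto the ball (compare outer measures: `Measure.map` by a measurable embedding,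
`MeasurableEmbedding.map_apply`, for the embedding of the subtype, or `chartMeas_apply` for measurable hulls on both sides).
-/

namespace Pool.Agent.Helper53.CL.H

open MeasureTheory Filter Topology Metric Set Iface Pool.Agent.Helper53.CL.F Pool.Agent.Helper53.CL.G
open scoped ContDiff Real ENNReal

universe u

variable {S : Type u} [TopologicalSpace S] [CompactSpace S] [T2Space S] [MeasurableSpace S] [BorelSpace S]

private theorem ga_congr {a : ℂ → ℝ} {c c' : ℝ → ℂ} {t : ℝ} (h : GA a c t) (he : c' =ᶠ[𝓝 t] c) :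
    GA a c' t := by
  obtain ⟨h1, h2, h3⟩ := h
  refine ⟨h1.congr_of_eventuallyEq he, ?_, ?_⟩
  · rw [he.eq_of_nhds, he.deriv_eq]
    exact h2
  · rw [he.deriv.deriv_eq, he.deriv_eq, he.eq_of_nhds]
    exact h3

private theorem chartMeas_image (C : CSurf S) (μ : Measure S) (i : Fin C.n) {B : Set ℂ}
    (hB : B ⊆ ball (0 : ℂ) 3) : chartMeas C μ i B = μ ((C.φ i).symm '' B) := by
  have htar := C.target i
  refine le_antisymm ?_ ?_
  · obtain ⟨T, hT⟩ : ∃ T : Set S, T = toMeasurable μ ((C.φ i).symm '' B) := ⟨_, rfl⟩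
    have hTm : MeasurableSet T := by
      rw [hT]
      exact measurableSet_toMeasurable _ _
    have hTs : (C.φ i).symm '' B ⊆ T := by
      rw [hT]
      exact subset_toMeasurable _ _
    have hTμ : μ T = μ ((C.φ i).symm '' B) := by
      rw [hT]
      exact measure_toMeasurable _
    have hm : MeasurableSet (ball (0 : ℂ) 3 ∩ (C.φ i).symm ⁻¹' T) := by
      have hc : ContinuousOn (C.φ i).symm (ball (0 : ℂ) 3) := by
        rw [← htar]
        exact (C.φ i).symm.continuousOn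
      have h1 := (continuousOn_iff_continuous_domRestrict.1 hc).measurable hTm
      have h2 := measurableSet_ball.subtype_image h1
      convert h2 using 1
      ext z
      constructor
      · rintro ⟨hz1, hz2⟩
        exact ⟨⟨z, hz1⟩, hz2, rfl⟩
      · rintro ⟨⟨y, hy⟩, hy2, rfl⟩
        exact ⟨hy, hy2⟩
    have hBs : B ⊆ ball (0 : ℂ) 3 ∩ (C.φ i).symm ⁻¹' T := fun z hz =>
      ⟨hB hz, hTs ⟨z, hz, rfl⟩⟩
    refine (measure_mono hBs).trans ?_
    rw [chartMeas_apply C μ i hm, ← hTμ]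
    refine measure_mono ?_
    rintro x ⟨hx, -, hx2⟩
    have h3 : (C.φ i).symm (C.φ i x) ∈ T := hx2
    rwa [(C.φ i).left_inv hx] at h3
  · obtain ⟨T, hT⟩ : ∃ T : Set ℂ, T = toMeasurable (chartMeas C μ i) B := ⟨_, rfl⟩
    have hTm : MeasurableSet T := by
      rw [hT]
      exact measurableSet_toMeasurable _ _
    have hTs : B ⊆ T := by
      rw [hT]
      exact subset_toMeasurable _ _
    have hTμ : chartMeas C μ i T = chartMeas C μ i B := by
      rw [hT]
      exact measure_toMeasurable _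
    rw [← hTμ, chartMeas_apply C μ i hTm]
    refine measure_mono ?_
    rintro _ ⟨z, hz, rfl⟩
    have hz3 : z ∈ (C.φ i).target := by
      rw [htar]
      exact hB hz
    refine ⟨(C.φ i).map_target hz3, ?_⟩
    show (C.φ i) ((C.φ i).symm z) ∈ T
    rw [(C.φ i).right_inv hz3]
    exact hTs hz

theorem lift_massive (C : CSurf S) {w : S → ℝ} (hw : C.IsSmooth w) (hp : ∀ x, 0 < w x) {μ : Measure S}
    [IsFiniteMeasure μ] {i : Fin C.n} {h κ₀ : ℝ} (hh : 0 < h) (hκ : 0 < κ₀)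
    (Hloc : ∀ᵐ x ∂(chartMeas C μ i), x ∈ ball (0 : ℂ) 1 → ∃ γ : ℝ → ℂ, γ 0 = x ∧
      (∀ s ∈ Ioo (-h) h, γ s ∈ ball (0 : ℂ) 2 ∧ GA (C.a w i) γ s) ∧
      ∃ κ ≥ κ₀, ∀ A : Set ℝ, MeasurableSet A → A ⊆ Ioo (-h) h →
        chartMeas C μ i (γ '' A) = ENNReal.ofReal κ * volume A) :
    ∀ᵐ x ∂μ, x ∈ (C.φ i).source → C.φ i x ∈ ball (0 : ℂ) 1 → ∃ γ ∈ Fam C w μ h κ₀, γ 0 = x := by
  filter_upwards [ae_chart C μ i Hloc] with x hx hxs hx1
  obtain ⟨c, hc0, hc, κ, hκκ, hA⟩ := hx hxs hx1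
  have h0 : (0 : ℝ) ∈ Ioo (-h) h := ⟨by linarith, hh⟩
  have hv : C.a w i (C.φ i x) * ‖deriv c 0‖ ^ 2 = 1 := by
    rw [← hc0]
    exact (hc 0 h0).2.2.1
  obtain ⟨γ, hγ, hγ0, hγv⟩ := geo_exists C hw hp hxs hv
  have htar := C.target i
  have hct : ∀ s ∈ Ioo (-h) h, c s ∈ (C.φ i).target := by
    intro s hs
    rw [htar]
    exact ball_subset_ball (by norm_num) (hc s hs).1
  have hcc : ∀ s ∈ Ioo (-h) h, ContinuousAt c s := fun s hs => (hc s hs).2.1.continuousAt
  obtain ⟨σ, hσ⟩ : ∃ σ : ℝ → S, σ = fun s => (C.φ i).symm (c s) := ⟨_, rfl⟩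
  have hσc : ∀ s ∈ Ioo (-h) h, ContinuousAt σ s := by
    intro s hs
    rw [hσ]
    exact ContinuousAt.comp (f := c) (g := (C.φ i).symm)
      ((C.φ i).continuousAt_symm (hct s hs)) (hcc s hs)
  have hev : ∀ s ∈ Ioo (-h) h, (C.φ i ∘ σ) =ᶠ[𝓝 s] c := by
    intro s hs
    filter_upwards [isOpen_Ioo.mem_nhds hs] with t ht
    rw [hσ]
    exact (C.φ i).right_inv (hct t ht)
  have hσs : ∀ s ∈ Ioo (-h) h, σ s ∈ (C.φ i).source := by
    intro s hs
    rw [hσ]
    exact (C.φ i).map_target (hct s hs)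
  have hσgeo : GeoOn C w σ (-h) h := by
    intro t ht
    refine ⟨hσc t ht, fun j hj => ?_⟩
    exact ga_change C hw hp (hσs t ht) hj (hσc t ht) (ga_congr (hc t ht).2 (hev t ht))
  have hσ0 : σ 0 = x := by
    rw [hσ]
    show (C.φ i).symm (c 0) = x
    rw [hc0]
    exact (C.φ i).left_inv hxs
  have heq : ∀ t ∈ Ioo (-h) h, γ t = σ t := by
    refine geoOn_unique C hw hp h0 ((geo_iff C).1 hγ (-h) h) hσgeo (hγ0.trans hσ0.symm)
      (i := i) (by rw [hγ0]; exact hxs) ?_
    rw [hγv, (hev 0 h0).deriv_eq]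
  refine ⟨γ, ⟨hγ, κ, hκκ, ?_⟩, hγ0⟩
  intro A hAm hAI
  have hAI' : A ⊆ Ioo (-h) h := by
    intro s hs
    have h1 := hAI hs
    rw [zero_sub, zero_add] at h1
    exact h1
  have him : γ '' A = (C.φ i).symm '' (c '' A) := by
    rw [← Set.image_comp]
    refine Set.image_congr ?_
    intro s hs
    rw [heq s (hAI' hs), hσ]
    rfl
  rw [him, ← chartMeas_image C μ i, hA A hAm hAI']
  rintro _ ⟨s, hs, rfl⟩
  exact ball_subset_ball (by norm_num) (hc s (hAI' hs)).1

/-- Smaller arcs and smaller density bounds. -/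
theorem fam_mono (C : CSurf S) {w : S → ℝ} {μ : Measure S} {h h' κ₀ κ₁ : ℝ} (hh : h' ≤ h) (hκ : κ₁ ≤ κ₀) :
    Fam C w μ h κ₀ ⊆ Fam C w μ h' κ₁ := by
  rintro γ ⟨hγ, κ, hκκ, hM⟩
  refine ⟨hγ, κ, hκ.trans hκκ, ?_⟩
  intro A hAm hAI
  exact hM A hAm (hAI.trans (Ioo_subset_Ioo (by linarith) (by linarith)))

end Pool.Agent.Helper53.CL.H
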