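import Pool.Agent.Helper53.CL.H.H05
import Pool.Agent.Helper53.CL.G.G10
import Pool.Agent.Helper53.CL.F.F09

/-!
# CL-H06: the limit measure is carried by closed geodesics (about 200 lines)

`exists_sub`: subsequences for the finitely many charts: by induction on `k ≤ C.n` there is `σ` such that for all `i < k` there
is `m` with `MConv` along `σ`; step: `MLim` for the chart `k` along `σ` (`LocSeq`, `EConv` pass to subsequences).
`limit_nonneg`: for each chart `i`, `Dat (C.a w i) (chartMeas C μ i) m` from `LocSeq` (smoothness), `Laws` and `Dens`;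
`massive_local`, then `lift_massive`; let `h, κ₀` be the minima over the charts (`fam_mono`; if `C.n = 0` then `S` is empty and
the integral is `0`).  Every `x` is in some `(φ i).symm '' ball 0 1`.  `μ {x} = 0` by the upper bound of `Dens` and
`chartMeas_singleton`.  `mass_main` gives `0 ≤ ∫ b dμ`.
-/

namespace Pool.Agent.Helper53.CL.H

open MeasureTheory Filter Topology Metric Set Iface Pool.Agent.Helper53.CL.F Pool.Agent.Helper53.CL.G
open scoped ContDiff Real ENNReal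

universe u

theorem LocSeq.subseq {a : ℂ → ℝ} {aj : ℕ → ℂ → ℝ} {ε : ℕ → ℝ} {u : ℕ → ℂ → ℝ} (h : LocSeq a aj ε u) {σ : ℕ → ℕ}
    (hσ : StrictMono σ) : LocSeq a (aj ∘ σ) (ε ∘ σ) (u ∘ σ) where
  a_smooth := h.a_smooth
  a_pos := h.a_pos
  aj_smooth := fun j => h.aj_smooth (σ j)
  aj_pos := fun j => h.aj_pos (σ j)
  aj_lim := fun k v hv => hσ.tendsto_atTop.eventually (h.aj_lim k v hv)
  eps_pos := fun j => h.eps_pos (σ j)
  eps_lim := h.eps_lim.comp hσ.tendsto_atTop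
  sol := fun j => h.sol (σ j)
  energy := h.energy.imp fun _ hE j => hE (σ j)
  modica := h.modica.imp fun _ hC j => hC (σ j)
  bounds := fun k => (h.bounds k).imp fun _ hC j => hC (σ j)

theorem EConv.subseq {aj : ℕ → ℂ → ℝ} {ε : ℕ → ℝ} {u : ℕ → ℂ → ℝ} {μ : Measure ℂ} (h : EConv aj ε u μ)
    {σ : ℕ → ℕ} (hσ : StrictMono σ) : EConv (aj ∘ σ) (ε ∘ σ) (u ∘ σ) μ :=
  fun f h1 h2 h3 => (h f h1 h2 h3).comp hσ.tendsto_atTop

theorem MConv.subseq {ε : ℕ → ℝ} {u : ℕ → ℂ → ℝ} {μ : Measure ℂ} {m : ℂ → ℂ} (h : MConv ε u μ m)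
    {σ : ℕ → ℕ} (hσ : StrictMono σ) : MConv (ε ∘ σ) (u ∘ σ) μ m :=
  fun f h1 h2 h3 => (h f h1 h2 h3).comp hσ.tendsto_atTop

variable {S : Type u} [TopologicalSpace S] [CompactSpace S] [T2Space S] [MeasurableSpace S] [BorelSpace S]

theorem exists_sub (hM : MLim) (C : CSurf S) {w : S → ℝ} {ε : ℕ → ℝ} {wj u : ℕ → S → ℝ}
    (hL : ∀ i, LocSeq (C.a w i) (fun j => C.a (wj j) i) ε (fun j => u j ∘ (C.φ i).symm)) {μ : Measure S}
    [IsFiniteMeasure μ] (hE : ∀ i, EConv (fun j => C.a (wj j) i) ε (fun j => u j ∘ (C.φ i).symm) (chartMeas C μ i)) :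
    ∃ σ : ℕ → ℕ, StrictMono σ ∧ ∀ i, ∃ m : ℂ → ℂ, Measurable m ∧ (∀ z, ‖m z‖ = 1) ∧
      MConv (ε ∘ σ) (fun j => u (σ j) ∘ (C.φ i).symm) (chartMeas C μ i) m := by
  have key : ∀ k : ℕ, ∃ σ : ℕ → ℕ, StrictMono σ ∧ ∀ i : Fin C.n, (i : ℕ) < k →
      ∃ m : ℂ → ℂ, Measurable m ∧ (∀ z, ‖m z‖ = 1) ∧
        MConv (ε ∘ σ) (fun j => u (σ j) ∘ (C.φ i).symm) (chartMeas C μ i) m := by
    intro k
    induction k with
    | zero => exact ⟨id, strictMono_id, fun i hi => absurd hi (Nat.not_lt_zero _)⟩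
    | succ k ih =>
      obtain ⟨σ, hσ, h⟩ := ih
      by_cases hk : k < C.n
      · obtain ⟨τ, m, hτ, hm, hm1, hMC⟩ := hM _ _ _ _ _ (LocSeq.subseq (hL ⟨k, hk⟩) hσ)
          (EConv.subseq (hE ⟨k, hk⟩) hσ) inferInstance
        refine ⟨σ ∘ τ, hσ.comp hτ, ?_⟩
        intro i hi
        by_cases hik : (i : ℕ) < k
        · obtain ⟨m', hm', hm1', hMC'⟩ := h i hik
          exact ⟨m', hm', hm1', MConv.subseq hMC' hτ⟩
        · have hi2 : i = ⟨k, hk⟩ := by
            apply Fin.ext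
            show (i : ℕ) = k
            omega
          subst hi2
          exact ⟨m, hm, hm1, hMC⟩
      · refine ⟨σ, hσ, fun i _ => h i ?_⟩
        have := i.2
        omega
  obtain ⟨σ, hσ, h⟩ := key C.n
  exact ⟨σ, hσ, fun i => h i i.2⟩

private theorem exists_min_pos {n : ℕ} (f : Fin n → ℝ) (hf : ∀ i, 0 < f i) :
    ∃ δ > 0, ∀ i, δ ≤ f i := by
  induction n with
  | zero => exact ⟨1, one_pos, fun i => i.elim0⟩
  | succ n ih =>
    obtain ⟨δ, hδ, h⟩ := ih (fun i => f i.castSucc) (fun i => hf _)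
    refine ⟨min δ (f (Fin.last n)), lt_min hδ (hf _), ?_⟩
    intro i
    refine Fin.lastCases ?_ ?_ i
    · exact min_le_right _ _
    · intro j
      exact (min_le_left _ _).trans (h j)

theorem limit_nonneg (h1 : Dens) (h2 : MLim) (h3 : Laws) (C : CSurf S) {w : S → ℝ} (hw : C.IsSmooth w)
    (hp : ∀ x, 0 < w x) {ε : ℕ → ℝ} {wj u : ℕ → S → ℝ}
    (hL : ∀ i, LocSeq (C.a w i) (fun j => C.a (wj j) i) ε (fun j => u j ∘ (C.φ i).symm)) {μ : Measure S}
    [IsFiniteMeasure μ] (hE : ∀ i, EConv (fun j => C.a (wj j) i) ε (fun j => u j ∘ (C.φ i).symm) (chartMeas C μ i))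
    {b : S → ℝ} (hb : Continuous b)
    (hbn : ∀ γ T, C.IsClosedGeo w γ T → 0 ≤ ∫ s in (0 : ℝ)..T, b (γ s)) : 0 ≤ ∫ x, b x ∂μ := by
  obtain ⟨σ, hσ, hsub⟩ := exists_sub h2 C hL hE
  have hlift : ∀ i, ∃ h κ₀ : ℝ, 0 < h ∧ 0 < κ₀ ∧ ∀ᵐ x ∂μ, x ∈ (C.φ i).source →
      C.φ i x ∈ ball (0 : ℂ) 1 → ∃ γ ∈ Fam C w μ h κ₀, γ 0 = x := by
    intro i
    obtain ⟨m, hm, hm1, hMC⟩ := hsub i
    have hLi := LocSeq.subseq (hL i) hσ
    have hEi := EConv.subseq (hE i) hσ
    have hDat : Dat (C.a w i) (chartMeas C μ i) m :=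
      { a_smooth := (hL i).a_smooth
        a_pos := (hL i).a_pos
        fin := inferInstance
        m_meas := hm
        m_norm := hm1
        laws := h3 _ _ _ _ _ _ hLi hEi inferInstance hMC hm hm1
        dens := h1 _ _ _ _ _ (hL i) (hE i) inferInstance }
    obtain ⟨h, κ₀, hh, hκ, hloc⟩ := massive_local hDat
    exact ⟨h, κ₀, hh, hκ, lift_massive C hw hp hh hκ hloc⟩
  choose h κ₀ hh hκ hae using hlift
  obtain ⟨h', hh', hmin⟩ := exists_min_pos h hh
  obtain ⟨κ', hκ', hminκ⟩ := exists_min_pos κ₀ hκ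
  have hpt : ∀ x, μ {x} = 0 := by
    intro x
    obtain ⟨i, hi, hi1⟩ := C.cover x
    have e1 := chartMeas_singleton C μ i (z := C.φ i x) (ball_subset_ball (by norm_num) hi1)
    rw [(C.φ i).left_inv hi] at e1
    rw [← e1]
    obtain ⟨c, K, r0, hc, hr0, hup, -⟩ := h1 _ _ _ _ _ (hL i) (hE i) inferInstance
    have e2 : ∀ r ∈ Ioo 0 r0, chartMeas C μ i {C.φ i x} ≤ ENNReal.ofReal (K * r) := by
      intro r hr
      refine (measure_mono ?_).trans (hup (C.φ i x) (ball_subset_ball (by norm_num) hi1) r hr)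
      rw [singleton_subset_iff]
      exact mem_ball_self hr.1
    have e3 : Tendsto (fun r : ℝ => ENNReal.ofReal (K * r)) (𝓝[>] 0) (𝓝 0) := by
      have e4 : Continuous (fun r : ℝ => ENNReal.ofReal (K * r)) :=
        ENNReal.continuous_ofReal.comp (by fun_prop)
      have e5 := e4.tendsto 0
      rw [mul_zero, ENNReal.ofReal_zero] at e5
      exact e5.mono_left nhdsWithin_le_nhds
    refine le_antisymm (ge_of_tendsto e3 ?_) bot_le
    filter_upwards [Ioo_mem_nhdsGT hr0] with r hr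
    exact e2 r hr
  refine mass_main C hw hp hpt hh' hκ' ?_ hb hbn
  filter_upwards [ae_all_iff.2 hae] with x hx
  obtain ⟨i, hi, hi1⟩ := C.cover x
  obtain ⟨γ, hγ, hγ0⟩ := hx i hi hi1
  exact ⟨γ, fam_mono C (hmin i) (hminκ i) hγ, hγ0⟩

end Pool.Agent.Helper53.CL.H
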