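import Pool.Agent.Helper53.CL.H.H06

/-!
# CL-H07: the Prop `Def` from the local blocks (about 200 lines)

Suppose the conclusion fails for some `η > 0`: infinitely many `j` with `(1/ε_j) ∫ w_j b (1 - cos u_j) dA < -η`; pass to this
subsequence, with all `ε_j ≤ 1`, then by `exists_limit` to a further one with `SConv` to a finite measure `μ`.
`locSeq_of`, `econv_of` in every chart, `limit_nonneg` (with `w = exp (τ b)`): `0 ≤ ∫ b dμ`.
`disc_to_zero`: `∫ |d_j| dA → 0` where `d_j = eS - 2 (1/ε) w (1 - cos u)` is the discrepancy on the surface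
(`ρ i z * d_j ((φ i).symm z) = disc ε (C.a w i) (u ∘ (φ i).symm) z` on `ball 0 3`): `S` is covered by the sets
`(φ i).symm '' ball 0 1`, and `∫ z in ball 0 1, |disc| ≤ ∫ f |disc| → 0` by `Disc0`, `f` a continuous cut off, `1` on `ball 0 1`,
support in `ball 0 2`.
Finally `(1/ε) ∫ w b (1 - cos u) dA = (1/2) ∫ b eS dA - (1/2) ∫ b d_j dA → (1/2) ∫ b dμ ≥ 0`, contradiction with `< -η`.
-/

namespace Pool.Agent.Helper53.CL.H

open MeasureTheory Filter Topology Metric Set Iface Pool.Agent.Helper53.CL.F Pool.Agent.Helper53.CL.G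
open scoped ContDiff Real ENNReal

universe u

variable {S : Type u} [TopologicalSpace S] [CompactSpace S] [T2Space S] [MeasurableSpace S] [BorelSpace S]

private theorem cutoff_cont (C : CSurf S) (i : Fin C.n) {f : ℂ → ℝ} (hf : Continuous f)
    (hfc : HasCompactSupport f) (hfs : tsupport f ⊆ ball 0 2) :
    Continuous ((C.φ i).source.indicator (f ∘ C.φ i)) := by
  classical
  have htar := C.target i
  obtain ⟨F, hF⟩ : ∃ F : S → ℝ, F = (C.φ i).source.indicator (f ∘ C.φ i) := ⟨_, rfl⟩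
  rw [← hF]
  obtain ⟨Kc, hKc⟩ : ∃ Kc : Set S, Kc = (C.φ i).symm '' tsupport f := ⟨_, rfl⟩
  have hts : tsupport f ⊆ (C.φ i).target := by
    rw [htar]
    exact hfs.trans (ball_subset_ball (by norm_num))
  have hKcl : IsClosed Kc := by
    rw [hKc]
    exact (hfc.isCompact.image_of_continuousOn ((C.φ i).symm.continuousOn.mono hts)).isClosed
  have hFz : ∀ x ∉ Kc, F x = 0 := by
    intro x hx
    rw [hF]
    by_cases hxs : x ∈ (C.φ i).source
    · rw [indicator_of_mem hxs]
      refine image_eq_zero_of_notMem_tsupport (f := f) fun hx2 => hx ?_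
      rw [hKc]
      exact ⟨C.φ i x, hx2, (C.φ i).left_inv hxs⟩
    · rw [indicator_of_notMem hxs]
  have hKs : Kc ⊆ (C.φ i).source := by
    rw [hKc]
    rintro _ ⟨z, hz, rfl⟩
    exact (C.φ i).map_target (hts hz)
  rw [continuous_iff_continuousAt]
  intro x
  by_cases hx : x ∈ (C.φ i).source
  · have h1 : ContinuousAt (f ∘ C.φ i) x :=
      ContinuousAt.comp hf.continuousAt ((C.φ i).continuousAt hx)
    refine h1.congr ?_
    filter_upwards [(C.φ i).open_source.mem_nhds hx] with y hy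
    rw [hF, indicator_of_mem hy]
  · have h2 : x ∈ Kcᶜ := fun hx2 => hx (hKs hx2)
    have h3 : ContinuousAt (fun _ : S => (0 : ℝ)) x := continuousAt_const
    refine h3.congr ?_
    filter_upwards [hKcl.isOpen_compl.mem_nhds h2] with y hy
    exact (hFz y hy).symm

/-- the discrepancy on the surface -/
private noncomputable def dS (C : CSurf S) (ε : ℝ) (w u : S → ℝ) (x : S) : ℝ :=
  eS C ε w u x - 2 * (1 / ε * (w x * (1 - Real.cos (u x))))

private theorem cont_of (C : CSurf S) {v : S → ℝ} (hv : C.IsSmooth v) : Continuous v :=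
  continuous_of_isC1 C (isC1_of_isSmooth C hv)

private theorem dS_int (C : CSurf S) {ε : ℝ} {w u : S → ℝ} (hw : C.IsSmooth w) (hu : C.IsSmooth u) :
    Integrable (dS C ε w u) C.area := by
  have hfin := area_finite C
  have h1 : Continuous fun x => 2 * (1 / ε * (w x * (1 - Real.cos (u x)))) := by
    have hw' := cont_of C hw
    have hu' := cont_of C hu
    fun_prop
  exact (integrable_eS C hw hu).sub
    (h1.integrable_of_hasCompactSupport (HasCompactSupport.of_compactSpace _))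

private theorem dS_chart (C : CSurf S) {ε : ℝ} {w u : S → ℝ} (hu : C.IsSmooth u) (i : Fin C.n)
    {z : ℂ} (hz : z ∈ ball (0 : ℂ) 3) :
    C.ρ i z * dS C ε w u ((C.φ i).symm z) = disc ε (C.a w i) (u ∘ (C.φ i).symm) z := by
  have h1 := eS_chart C (ε := ε) (w := w) hu i hz
  unfold dS
  rw [mul_sub, h1]
  unfold ed disc CSurf.a
  simp only [Function.comp_apply]
  ring

theorem disc_to_zero (h0 : Disc0) (C : CSurf S) {w : S → ℝ} {ε : ℕ → ℝ} {wj u : ℕ → S → ℝ}
    (hwj : ∀ j, C.IsSmooth (wj j)) (hu : ∀ j, C.IsSmooth (u j))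
    (hL : ∀ i, LocSeq (C.a w i) (fun j => C.a (wj j) i) ε (fun j => u j ∘ (C.φ i).symm)) {μ : Measure S}
    [IsFiniteMeasure μ] (hE : ∀ i, EConv (fun j => C.a (wj j) i) ε (fun j => u j ∘ (C.φ i).symm) (chartMeas C μ i)) :
    Tendsto (fun j => ∫ x, |eS C (ε j) (wj j) (u j) x - 2 * (1 / ε j * (wj j x * (1 - Real.cos (u j x))))| ∂C.area)
      atTop (𝓝 0) := by
  classical
  obtain ⟨χ, hχ1, hχ2⟩ : ∃ χ : ContDiffBump (0 : ℂ), χ.rIn = 1 ∧ χ.rOut = 3 / 2 :=
    ⟨⟨1, 3 / 2, by norm_num, by norm_num⟩, rfl, rfl⟩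
  obtain ⟨f, hf⟩ : ∃ f : ℂ → ℝ, f = χ := ⟨_, rfl⟩
  have hfc : Continuous f := by
    rw [hf]
    exact χ.continuous
  have hfk : HasCompactSupport f := by
    rw [hf]
    exact χ.hasCompactSupport
  have hfs : tsupport f ⊆ ball 0 2 := by
    rw [hf, χ.tsupport_eq, hχ2]
    exact closedBall_subset_ball (by norm_num)
  have hf0 : ∀ z, 0 ≤ f z := by
    intro z
    rw [hf]
    exact χ.nonneg
  have hf1 : ∀ z ∈ ball (0 : ℂ) 1, f z = 1 := by
    intro z hz
    rw [hf]
    exact χ.one_of_mem_closedBall (by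
      rw [hχ1]
      exact ball_subset_closedBall hz)
  have hf2 : ∀ z, z ∉ ball (0 : ℂ) 2 → f z = 0 := fun z hz =>
    image_eq_zero_of_notMem_tsupport fun hz2 => hz (hfs hz2)
  obtain ⟨F, hF⟩ : ∃ F : Fin C.n → S → ℝ, F = fun i => (C.φ i).source.indicator (f ∘ C.φ i) :=
    ⟨_, rfl⟩
  have hFc : ∀ i, Continuous (F i) := by
    intro i
    rw [hF]
    exact cutoff_cont C i hfc hfk hfs
  have hF0 : ∀ i x, 0 ≤ F i x := by
    intro i x
    rw [hF]
    exact indicator_nonneg (fun y _ => hf0 _) x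
  have hcov : ∀ x, 1 ≤ ∑ i, F i x := by
    intro x
    obtain ⟨i, hi, hi1⟩ := C.cover x
    have h1 : F i x = 1 := by
      rw [hF]
      simp only
      rw [indicator_of_mem hi]
      exact hf1 _ hi1
    rw [← h1]
    exact Finset.single_le_sum (fun k _ => hF0 k x) (Finset.mem_univ i)
  have hdi : ∀ j, Integrable (dS C (ε j) (wj j) (u j)) C.area := fun j => dS_int C (hwj j) (hu j)
  have hFi : ∀ i j, Integrable (fun x => F i x * |dS C (ε j) (wj j) (u j) x|) C.area := by
    intro i j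
    obtain ⟨B, hB⟩ := isCompact_univ.exists_bound_of_continuousOn (hFc i).continuousOn
    exact (hdi j).abs.bdd_mul (c := B) (hFc i).aestronglyMeasurable
      (ae_of_all _ fun x => hB x (mem_univ x))
  have hloc : ∀ i j, ∫ x, F i x * |dS C (ε j) (wj j) (u j) x| ∂C.area =
      ∫ z, f z * |disc (ε j) (C.a (wj j) i) (u j ∘ (C.φ i).symm) z| := by
    intro i j
    have e1 : ∫ x, F i x * |dS C (ε j) (wj j) (u j) x| ∂C.area =
        ∫ x in (C.φ i).source, F i x * |dS C (ε j) (wj j) (u j) x| ∂C.area := by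
      refine (setIntegral_eq_integral_of_forall_compl_eq_zero ?_).symm
      intro x hx
      rw [hF]
      simp only
      rw [indicator_of_notMem hx, zero_mul]
    have e2 : ∫ z in ball (0 : ℂ) 3, f z * |disc (ε j) (C.a (wj j) i) (u j ∘ (C.φ i).symm) z| =
        ∫ z, f z * |disc (ε j) (C.a (wj j) i) (u j ∘ (C.φ i).symm) z| := by
      refine setIntegral_eq_integral_of_forall_compl_eq_zero ?_
      intro z hz
      rw [hf2 z (fun hz2 => hz (ball_subset_ball (by norm_num) hz2)), zero_mul]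
    rw [e1, integral_chart, ← e2]
    refine setIntegral_congr_fun measurableSet_ball ?_
    intro z hz
    have hz2 : z ∈ (C.φ i).target := by
      rw [C.target i]
      exact hz
    have e3 : F i ((C.φ i).symm z) = f z := by
      rw [hF]
      simp only
      rw [indicator_of_mem ((C.φ i).map_target hz2)]
      show f (C.φ i ((C.φ i).symm z)) = f z
      rw [(C.φ i).right_inv hz2]
    simp only
    rw [e3, smul_eq_mul, ← dS_chart C (hu j) i hz, abs_mul, abs_of_pos (C.ρ_pos i z hz)]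
    ring
  have hlim : Tendsto (fun j => ∑ i, ∫ z, f z * |disc (ε j) (C.a (wj j) i)
      (u j ∘ (C.φ i).symm) z|) atTop (𝓝 0) := by
    have h1 : Tendsto (fun j => ∑ i, ∫ z, f z * |disc (ε j) (C.a (wj j) i)
      (u j ∘ (C.φ i).symm) z|) atTop (𝓝 (∑ _i : Fin C.n, (0 : ℝ))) :=
      tendsto_finsetSum _ fun i _ => h0 _ _ _ _ _ (hL i) (hE i) inferInstance f hfc hfk hfs
    rwa [Finset.sum_const_zero] at h1
  refine squeeze_zero (fun j => integral_nonneg fun x => abs_nonneg _) (fun j => ?_) hlim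
  have h2 : ∫ x, |dS C (ε j) (wj j) (u j) x| ∂C.area ≤
      ∫ x, ∑ i, F i x * |dS C (ε j) (wj j) (u j) x| ∂C.area := by
    refine integral_mono (hdi j).abs (integrable_finsetSum _ fun i _ => hFi i j) ?_
    intro x
    simp only
    rw [← Finset.sum_mul]
    exact le_mul_of_one_le_left (abs_nonneg _) (hcov x)
  rw [integral_finsetSum _ fun i _ => hFi i j] at h2
  refine h2.trans (le_of_eq ?_)
  exact Finset.sum_congr rfl fun i _ => hloc i j

variable (S) in
theorem def_of (h0 : Disc0) (h1 : Dens) (h2 : MLim) (h3 : Laws) (hU : Unif S) : Def S := by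
  intro C b hb ε t τ u hε hε0 ht htτ hu hE hbn η hη
  by_contra hcon
  have hfreq : ∃ᶠ j in atTop, ¬ (-η ≤ 1 / ε j *
      ∫ x, Real.exp (t j * b x) * b x * (1 - Real.cos (u j x)) ∂C.area) :=
    Filter.not_eventually.1 hcon
  have hε1 : ∀ᶠ j in atTop, ε j ≤ 1 := by
    have := hε0.eventually (Iio_mem_nhds (show (0 : ℝ) < 1 by norm_num))
    filter_upwards [this] with j hj
    exact le_of_lt hj
  obtain ⟨σ₁, hσ₁, hP⟩ := Filter.extraction_of_frequently_atTop (hfreq.and_eventually hε1)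
  have hbc : Continuous b := cont_of C hb
  have hexp : ∀ s : ℝ, C.IsSmooth (fun x => Real.exp (s * b x)) := by
    intro s i
    have h4 : ContDiffOn ℝ ∞ (fun z => s * (b ∘ (C.φ i).symm) z) (ball 0 3) :=
      contDiffOn_const.mul (hb i)
    exact h4.exp
  obtain ⟨E, hE⟩ := hE
  obtain ⟨σ₂, μ, hσ₂, hμ, hSC⟩ := exists_limit C (ε := ε ∘ σ₁)
    (w := fun j x => Real.exp (t (σ₁ j) * b x)) (u := u ∘ σ₁) (fun j => hε _)
    (fun j => hexp _) (fun j x => Real.exp_pos _) (fun j => (hu _).smooth) ⟨E, fun j => hE _⟩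
  obtain ⟨σ, hσ⟩ : ∃ σ : ℕ → ℕ, σ = σ₁ ∘ σ₂ := ⟨_, rfl⟩
  have hσm : StrictMono σ := by
    rw [hσ]
    exact hσ₁.comp hσ₂
  have hPσ : ∀ j, (1 / ε (σ j) * ∫ x, Real.exp (t (σ j) * b x) * b x *
      (1 - Real.cos (u (σ j) x)) ∂C.area < -η) ∧ ε (σ j) ≤ 1 := by
    intro j
    rw [hσ]
    exact ⟨not_le.1 (hP (σ₂ j)).1, (hP (σ₂ j)).2⟩
  have hSC' : SConv C (fun j => ε (σ j)) (fun j x => Real.exp (t (σ j) * b x))
      (fun j => u (σ j)) μ := by
    rw [hσ]
    exact hSC
  have hL : ∀ i, LocSeq (C.a (fun x => Real.exp (τ * b x)) i)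
      (fun j => C.a (fun x => Real.exp (t (σ j) * b x)) i) (fun j => ε (σ j))
      (fun j => u (σ j) ∘ (C.φ i).symm) := fun i =>
    locSeq_of hU C hb (ε := fun j => ε (σ j)) (t := fun j => t (σ j)) (u := fun j => u (σ j))
      (fun j => hε _) (fun j => (hPσ j).2)
      (hε0.comp hσm.tendsto_atTop) (fun j => ht _) (htτ.comp hσm.tendsto_atTop)
      (fun j => hu _) ⟨E, fun j => hE _⟩ i
  have hEc : ∀ i, EConv (fun j => C.a (fun x => Real.exp (t (σ j) * b x)) i) (fun j => ε (σ j))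
      (fun j => u (σ j) ∘ (C.φ i).symm) (chartMeas C μ i) := fun i =>
    econv_of C (fun j => (hu (σ j)).smooth) hSC' i
  have hnn := limit_nonneg h1 h2 h3 C (hexp τ) (fun x => Real.exp_pos _) hL hEc hbc hbn
  have hdz := disc_to_zero h0 C (fun j => hexp (t (σ j))) (fun j => (hu (σ j)).smooth) hL hEc
  have hb1 := hSC' b hbc
  obtain ⟨B, hB⟩ := isCompact_univ.exists_bound_of_continuousOn hbc.continuousOn
  have hdi : ∀ j, Integrable (dS C (ε (σ j)) (fun x => Real.exp (t (σ j) * b x)) (u (σ j)))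
      C.area := fun j => dS_int C (hexp _) (hu _).smooth
  have hbd : ∀ j, Integrable (fun x => b x *
      dS C (ε (σ j)) (fun x => Real.exp (t (σ j) * b x)) (u (σ j)) x) C.area := fun j =>
    (hdi j).bdd_mul (c := B) hbc.aestronglyMeasurable (ae_of_all _ fun x => hB x (mem_univ x))
  have hbe : ∀ j, Integrable (fun x => b x *
      eS C (ε (σ j)) (fun x => Real.exp (t (σ j) * b x)) (u (σ j)) x) C.area := fun j =>
    (integrable_eS C (hexp _) (hu _).smooth).bdd_mul (c := B) hbc.aestronglyMeasurable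
      (ae_of_all _ fun x => hB x (mem_univ x))
  have hzero : Tendsto (fun j => ∫ x, b x *
      dS C (ε (σ j)) (fun x => Real.exp (t (σ j) * b x)) (u (σ j)) x ∂C.area) atTop (𝓝 0) := by
    have h5 := hdz.const_mul (max B 0)
    rw [mul_zero] at h5
    refine squeeze_zero_norm (fun j => ?_) h5
    refine (norm_integral_le_integral_norm _).trans ?_
    rw [← integral_const_mul]
    refine integral_mono (hbd j).norm ((hdi j).abs.const_mul _) ?_
    intro x
    simp only
    rw [norm_mul, Real.norm_eq_abs (dS C _ _ _ x)]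
    exact mul_le_mul_of_nonneg_right ((hB x (mem_univ x)).trans (le_max_left _ _)) (abs_nonneg _)
  have hid : ∀ j, (∫ x, b x * eS C (ε (σ j)) (fun x => Real.exp (t (σ j) * b x)) (u (σ j)) x
      ∂C.area) - ∫ x, b x * dS C (ε (σ j)) (fun x => Real.exp (t (σ j) * b x)) (u (σ j)) x
      ∂C.area = 2 * (1 / ε (σ j) * ∫ x, Real.exp (t (σ j) * b x) * b x *
      (1 - Real.cos (u (σ j) x)) ∂C.area) := by
    intro j
    rw [← integral_sub (hbe j) (hbd j), ← integral_const_mul, ← integral_const_mul]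
    refine integral_congr_ae (ae_of_all _ fun x => ?_)
    simp only
    unfold dS
    ring
  have hlim := hb1.sub hzero
  rw [sub_zero] at hlim
  have h6 : ∫ x, b x ∂μ ≤ -2 * η := by
    refine le_of_tendsto' hlim ?_
    intro j
    rw [hid j]
    linarith [(hPσ j).1]
  linarith

end Pool.Agent.Helper53.CL.H
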